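import Pool.Agent.Helper76.CQ.Defs
import Pool.Agent.Helper86.CY.TanSpan

/-!
# The dimension of the tangent space is 11 (piece CQ-6a)
-/

namespace Pool.Agent.Helper45.CQ

open MvPolynomial Pool.Agent.Helper76.CY Pool.Agent.Helper76.CQ Pool.Agent.Helper86.CY

/-- The equation `tanVal = 0` as a linear form. -/
def tanL {K : Type*} [Field K] (D : Ten K) (i j k : Fin 3) : (Idx → K) →ₗ[K] K :=
  qL D i j k + qL D j i k + qL D k i j

/-- The ten equations of the tangent space. -/
def eqL {K : Type*} [Field K] (D : Ten K) : (Idx → K) →ₗ[K] (Fin 10 → K) :=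
  LinearMap.pi ![tanL D 0 0 0, tanL D 0 0 1, tanL D 0 0 2, tanL D 0 1 1, tanL D 0 1 2,
    tanL D 0 2 2, tanL D 1 1 1, tanL D 1 1 2, tanL D 1 2 2, tanL D 2 2 2]

theorem ker_le {K : Type*} [Field K] (D : Ten K) (hD : Window D) :
    LinearMap.ker (eqL D) ≤ tanSp D := by
  intro τ hτ
  rw [LinearMap.mem_ker] at hτ
  have t000 : qL D 0 0 0 τ + qL D 0 0 0 τ + qL D 0 0 0 τ = 0 := congrFun hτ 0
  have t001 : qL D 0 0 1 τ + qL D 0 0 1 τ + qL D 1 0 0 τ = 0 := congrFun hτ 1
  have t002 : qL D 0 0 2 τ + qL D 0 0 2 τ + qL D 2 0 0 τ = 0 := congrFun hτ 2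
  have t011 : qL D 0 1 1 τ + qL D 1 0 1 τ + qL D 1 0 1 τ = 0 := congrFun hτ 3
  have t012 : qL D 0 1 2 τ + qL D 1 0 2 τ + qL D 2 0 1 τ = 0 := congrFun hτ 4
  have t022 : qL D 0 2 2 τ + qL D 2 0 2 τ + qL D 2 0 2 τ = 0 := congrFun hτ 5
  have t111 : qL D 1 1 1 τ + qL D 1 1 1 τ + qL D 1 1 1 τ = 0 := congrFun hτ 6
  have t112 : qL D 1 1 2 τ + qL D 1 1 2 τ + qL D 2 1 1 τ = 0 := congrFun hτ 7
  have t122 : qL D 1 2 2 τ + qL D 2 1 2 τ + qL D 2 1 2 τ = 0 := congrFun hτ 8
  have t222 : qL D 2 2 2 τ + qL D 2 2 2 τ + qL D 2 2 2 τ = 0 := congrFun hτ 9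
  have s : ∀ i, qL D i 1 0 τ = qL D i 0 1 τ ∧ qL D i 2 0 τ = qL D i 0 2 τ ∧
      qL D i 2 1 τ = qL D i 1 2 τ := fun i =>
    ⟨qL_symm D hD i 1 0 τ, qL_symm D hD i 2 0 τ, qL_symm D hD i 2 1 τ⟩
  intro i j k
  rw [tanVal_eq D hD]
  fin_cases i <;> fin_cases j <;> fin_cases k <;>
    simp only [Fin.zero_eta, Fin.mk_one, Fin.reduceFinMk, (s 0).1, (s 0).2.1, (s 0).2.2, (s 1).1,
      (s 1).2.1, (s 1).2.2, (s 2).1, (s 2).2.1, (s 2).2.2]
  · linear_combination t000
  · linear_combination t001
  · linear_combination t002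
  · linear_combination t001
  · linear_combination t011
  · linear_combination t012
  · linear_combination t002
  · linear_combination t012
  · linear_combination t022
  · linear_combination t001
  · linear_combination t011
  · linear_combination t012
  · linear_combination t011
  · linear_combination t111
  · linear_combination t112
  · linear_combination t012
  · linear_combination t112
  · linear_combination t122
  · linear_combination t002
  · linear_combination t012
  · linear_combination t022
  · linear_combination t012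
  · linear_combination t112
  · linear_combination t122
  · linear_combination t022
  · linear_combination t122
  · linear_combination t222

theorem finrank_tanSp {K : Type*} [Field K] [CharZero K] (D : Ten K) (hD : Window D) :
    Module.finrank K (tanSp D) = 11 := by
  refine le_antisymm ?_ ?_
  · have hinj : Function.Injective ((coordL D).domRestrict (tanSp D)) := by
      rw [injective_iff_map_eq_zero]
      intro x hx
      exact Subtype.ext (coordL_inj D hD x.1 x.2 hx)
    have := LinearMap.finrank_le_finrank_of_injective hinj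
    simpa using this
  · refine le_trans ?_ (Submodule.finrank_mono (ker_le D hD))
    have h1 := LinearMap.finrank_range_add_finrank_ker (eqL D)
    have h2 : Module.finrank K (LinearMap.range (eqL D)) ≤ 10 := by
      have := Submodule.finrank_le (LinearMap.range (eqL D))
      simpa using this
    have h3 : Module.finrank K (Idx → K) = 21 := by simp [Idx]
    omega

end Pool.Agent.Helper45.CQ
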